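import Pool.Agent.Helper36.ISO.KTK

/-!
Project ISO, rows K1 and K2.
-/

set_option autoImplicit false

open scoped Classical

namespace Pool.Agent.Helper36.ISO

open Pool.Agent.Helper79.PN Pool.Agent.Helper69.ISO

/-- zero displacement -/
def zT : T5 := (0, 0, 0, 0, 0)

/-- rim of a hub -/
def rimT (c : T5) (j : ZMod 5) : T5 := ad (ad c (ut j)) (ut (j + 2))

/-- hubs of a ring -/
def hbT (k : ZMod 5) : T5 := sb (sb (ut k) (ut (k + 1))) (ut (k - 1))

/-- inner points of a ring -/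
def pvT (k : ZMod 5) : T5 := ut k

/-- outer points of a ring -/
def qvT (k : ZMod 5) : T5 := sb (ad (ut (k - 1)) (ut (k + 1))) (ut k)

/-- table of K1 -/
def tab1 : List (T5 × ℤ) := (zT, -2) :: L5.map fun j => (rimT zT j, 1)

/-- table of K2 -/
def tab2 : List (T5 × ℤ) := L5.flatMap fun k => [(hbT k, 1), (pvT k, 1), (qvT k, -2)]

set_option maxRecDepth 100000 in
theorem ck1 : ck 1 3 (-2) tab1 = true := by decide +kernel

set_option maxRecDepth 100000 in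
theorem ck2 : ck 2 (-5) 3 tab2 = true := by decide +kernel

theorem tl_zT : tl zT = 0 := by
  funext j
  fin_cases j <;> rfl

theorem u_zT (u : Lam) : u + tl zT = u := by
  rw [tl_zT]
  exact add_zero u

theorem u_rimT (u : Lam) (c : T5) (j : ZMod 5) : u + tl (rimT c j) = rim (u + tl c) j := by
  unfold rimT rim
  rw [tl_ad, tl_ad, tl_ut, tl_ut]
  abel

theorem u_hbT (u : Lam) (k : ZMod 5) : u + tl (hbT k) = hb u k := by
  unfold hbT hb
  rw [tl_sb, tl_sb, tl_ut, tl_ut, tl_ut]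
  abel

theorem u_pvT (u : Lam) (k : ZMod 5) : u + tl (pvT k) = pv u k := by
  unfold pvT pv
  rw [tl_ut]

theorem u_qvT (u : Lam) (k : ZMod 5) : u + tl (qvT k) = qv u k := by
  unfold qvT qv
  rw [tl_sb, tl_ad, tl_ut, tl_ut, tl_ut]
  abel

theorem sum5 (f : ZMod 5 → ℝ) : ∑ i : ZMod 5, f i = f 0 + f 1 + f 2 + f 3 + f 4 :=
  Fin.sum_univ_five f

/-- K1 -/
theorem K1 : ST_K1 := by
  intro P a c ha hn hl
  have h := orth_tab (P := P) (a := a) (u := c) (n := 1) (LA := 3) (LB := -2) (tab := tab1) ha hn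
    (fun j => by
      have := hl j
      push_cast
      linarith) ck1
  have h1 : sf a c tab1 = ((-2 : ℤ) : ℝ) * a (c + tl zT) +
      (((1 : ℤ) : ℝ) * a (c + tl (rimT zT 0)) + (((1 : ℤ) : ℝ) * a (c + tl (rimT zT 1)) +
      (((1 : ℤ) : ℝ) * a (c + tl (rimT zT 2)) + (((1 : ℤ) : ℝ) * a (c + tl (rimT zT 3)) +
      (((1 : ℤ) : ℝ) * a (c + tl (rimT zT 4)) + 0))))) := rfl
  rw [h1] at h
  simp only [u_rimT, u_zT] at h
  push_cast at h
  rw [sum5]
  linarith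

/-- K2 -/
theorem K2 : ST_K2 := by
  intro P a z ha hn hl
  have h := orth_tab (P := P) (a := a) (u := z) (n := 2) (LA := -5) (LB := 3) (tab := tab2) ha hn
    (fun j => by
      have := hl j
      push_cast
      linarith) ck2
  have h1 : sf a z tab2 = ((1 : ℤ) : ℝ) * a (z + tl (hbT 0)) + (((1 : ℤ) : ℝ) * a (z + tl (pvT 0)) +
      (((-2 : ℤ) : ℝ) * a (z + tl (qvT 0)) +
      (((1 : ℤ) : ℝ) * a (z + tl (hbT 1)) + (((1 : ℤ) : ℝ) * a (z + tl (pvT 1)) +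
      (((-2 : ℤ) : ℝ) * a (z + tl (qvT 1)) +
      (((1 : ℤ) : ℝ) * a (z + tl (hbT 2)) + (((1 : ℤ) : ℝ) * a (z + tl (pvT 2)) +
      (((-2 : ℤ) : ℝ) * a (z + tl (qvT 2)) +
      (((1 : ℤ) : ℝ) * a (z + tl (hbT 3)) + (((1 : ℤ) : ℝ) * a (z + tl (pvT 3)) +
      (((-2 : ℤ) : ℝ) * a (z + tl (qvT 3)) +
      (((1 : ℤ) : ℝ) * a (z + tl (hbT 4)) + (((1 : ℤ) : ℝ) * a (z + tl (pvT 4)) +
      (((-2 : ℤ) : ℝ) * a (z + tl (qvT 4)) + 0)))))))))))))) := rfl
  rw [h1] at h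
  simp only [u_hbT, u_pvT, u_qvT] at h
  push_cast at h
  rw [sum5]
  linarith

end Pool.Agent.Helper36.ISO
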