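import Pool.Agent.Helper36.ISO.K12

/-!
Project ISO, row K3.
-/

set_option autoImplicit false

open scoped Classical

namespace Pool.Agent.Helper36.ISO

open Pool.Agent.Helper79.PN Pool.Agent.Helper69.ISO

/-- the five wheels -/
def vcT (j : ZMod 5) : T5 :=
  sb (sb (sb (sb (ut j) (ut (j + 1))) (ut (j + 1))) (ut (j - 1))) (ut (j - 1))

/-- hubs between the wheels -/
def xvT (m : ZMod 5) : T5 := sb (sb (sb zT (ut m)) (ut (m + 2))) (ut (m - 2))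

/-- inner points -/
def yvT (m : ZMod 5) : T5 :=
  sb (sb (sb (ad (ut (m + 1)) (ut (m - 1))) (ut m)) (ut (m + 2))) (ut (m - 2))

/-- table of K3 -/
def tab3 : List (T5 × ℤ) := L5.flatMap fun j =>
  (L5.map fun i => (rimT (vcT j) i, 1)) ++ [(vcT j, -2), (xvT j, 1), (yvT j, -2)]

/-- table of K3 -/
def tab3L : List (T5 × ℤ) :=
  [((2, -2, 1, 0, -2), 1), ((1, -1, 0, 1, -2), 1), ((1, -2, 1, 0, -1), 1),
   ((2, -2, 0, 1, -2), 1), ((1, -1, 0, 0, -1), 1), ((1, -2, 0, 0, -2), -2),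
   ((-1, 0, -1, -1, 0), 1), ((-1, 1, -1, -1, 1), -2), ((-1, 1, -1, 0, 0), 1),
   ((-2, 2, -2, 1, 0), 1), ((-2, 1, -1, 0, 1), 1), ((-1, 1, -2, 1, 0), 1),
   ((-2, 2, -2, 0, 1), 1), ((-2, 1, -2, 0, 0), -2), ((0, -1, 0, -1, -1), 1),
   ((1, -1, 1, -1, -1), -2), ((1, -2, 2, -2, 0), 1), ((0, -1, 1, -1, 0), 1),
   ((0, -2, 2, -2, 1), 1), ((1, -2, 1, -1, 0), 1), ((0, -1, 1, -2, 1), 1),
   ((0, -2, 1, -2, 0), -2), ((-1, 0, -1, 0, -1), 1), ((-1, 1, -1, 1, -1), -2),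
   ((1, 0, -1, 1, -2), 1), ((0, 1, -2, 2, -2), 1), ((0, 0, -1, 1, -1), 1),
   ((1, 0, -2, 2, -2), 1), ((0, 1, -2, 1, -1), 1), ((0, 0, -2, 1, -2), -2),
   ((-1, -1, 0, -1, 0), 1), ((-1, -1, 1, -1, 1), -2), ((-1, 0, 1, -2, 1), 1),
   ((-2, 1, 0, -1, 1), 1), ((-2, 0, 1, -2, 2), 1), ((-1, 0, 0, -1, 1), 1),
   ((-2, 1, 0, -2, 2), 1), ((-2, 0, 0, -2, 1), -2), ((0, -1, -1, 0, -1), 1),
   ((1, -1, -1, 1, -1), -2)]

set_option maxRecDepth 100000 in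
theorem e3 : tab3 = tab3L := by decide +kernel

set_option maxRecDepth 100000 in
theorem ck3L : ck 4 8 (-5) tab3L = true := by decide +kernel

theorem ck3 : ck 4 8 (-5) tab3 = true := by
  rw [e3]
  exact ck3L

theorem u_vcT (u : Lam) (j : ZMod 5) : u + tl (vcT j) = vc u j := by
  unfold vcT vc
  rw [tl_sb, tl_sb, tl_sb, tl_sb, tl_ut, tl_ut, tl_ut]
  abel

theorem u_xvT (u : Lam) (j : ZMod 5) : u + tl (xvT j) = xv u j := by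
  unfold xvT xv
  rw [tl_sb, tl_sb, tl_sb, tl_zT, tl_ut, tl_ut, tl_ut]
  abel

theorem u_yvT (u : Lam) (j : ZMod 5) : u + tl (yvT j) = yv u j := by
  unfold yvT yv
  rw [tl_sb, tl_sb, tl_sb, tl_ad, tl_ut, tl_ut, tl_ut, tl_ut, tl_ut]
  abel

/-- K3 -/
theorem K3 : ST_K3 := by
  intro P a u ha hn hl
  have h := orth_tab (P := P) (a := a) (u := u) (n := 4) (LA := 8) (LB := -5) (tab := tab3) ha hn
    (fun j => by
      have := hl j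
      push_cast
      linarith) ck3
  have h1 : sf a u tab3 =
      ((1 : ℤ) : ℝ) * a (u + tl (rimT (vcT 0) 0)) + (
      ((1 : ℤ) : ℝ) * a (u + tl (rimT (vcT 0) 1)) + (
      ((1 : ℤ) : ℝ) * a (u + tl (rimT (vcT 0) 2)) + (
      ((1 : ℤ) : ℝ) * a (u + tl (rimT (vcT 0) 3)) + (
      ((1 : ℤ) : ℝ) * a (u + tl (rimT (vcT 0) 4)) + (
      ((-2 : ℤ) : ℝ) * a (u + tl (vcT 0)) + (
      ((1 : ℤ) : ℝ) * a (u + tl (xvT 0)) + (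
      ((-2 : ℤ) : ℝ) * a (u + tl (yvT 0)) + (
      ((1 : ℤ) : ℝ) * a (u + tl (rimT (vcT 1) 0)) + (
      ((1 : ℤ) : ℝ) * a (u + tl (rimT (vcT 1) 1)) + (
      ((1 : ℤ) : ℝ) * a (u + tl (rimT (vcT 1) 2)) + (
      ((1 : ℤ) : ℝ) * a (u + tl (rimT (vcT 1) 3)) + (
      ((1 : ℤ) : ℝ) * a (u + tl (rimT (vcT 1) 4)) + (
      ((-2 : ℤ) : ℝ) * a (u + tl (vcT 1)) + (
      ((1 : ℤ) : ℝ) * a (u + tl (xvT 1)) + (
      ((-2 : ℤ) : ℝ) * a (u + tl (yvT 1)) + (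
      ((1 : ℤ) : ℝ) * a (u + tl (rimT (vcT 2) 0)) + (
      ((1 : ℤ) : ℝ) * a (u + tl (rimT (vcT 2) 1)) + (
      ((1 : ℤ) : ℝ) * a (u + tl (rimT (vcT 2) 2)) + (
      ((1 : ℤ) : ℝ) * a (u + tl (rimT (vcT 2) 3)) + (
      ((1 : ℤ) : ℝ) * a (u + tl (rimT (vcT 2) 4)) + (
      ((-2 : ℤ) : ℝ) * a (u + tl (vcT 2)) + (
      ((1 : ℤ) : ℝ) * a (u + tl (xvT 2)) + (
      ((-2 : ℤ) : ℝ) * a (u + tl (yvT 2)) + (
      ((1 : ℤ) : ℝ) * a (u + tl (rimT (vcT 3) 0)) + (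
      ((1 : ℤ) : ℝ) * a (u + tl (rimT (vcT 3) 1)) + (
      ((1 : ℤ) : ℝ) * a (u + tl (rimT (vcT 3) 2)) + (
      ((1 : ℤ) : ℝ) * a (u + tl (rimT (vcT 3) 3)) + (
      ((1 : ℤ) : ℝ) * a (u + tl (rimT (vcT 3) 4)) + (
      ((-2 : ℤ) : ℝ) * a (u + tl (vcT 3)) + (
      ((1 : ℤ) : ℝ) * a (u + tl (xvT 3)) + (
      ((-2 : ℤ) : ℝ) * a (u + tl (yvT 3)) + (
      ((1 : ℤ) : ℝ) * a (u + tl (rimT (vcT 4) 0)) + (
      ((1 : ℤ) : ℝ) * a (u + tl (rimT (vcT 4) 1)) + (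
      ((1 : ℤ) : ℝ) * a (u + tl (rimT (vcT 4) 2)) + (
      ((1 : ℤ) : ℝ) * a (u + tl (rimT (vcT 4) 3)) + (
      ((1 : ℤ) : ℝ) * a (u + tl (rimT (vcT 4) 4)) + (
      ((-2 : ℤ) : ℝ) * a (u + tl (vcT 4)) + (
      ((1 : ℤ) : ℝ) * a (u + tl (xvT 4)) + (
      ((-2 : ℤ) : ℝ) * a (u + tl (yvT 4)) + 0))))))))))))))))))))))))))))))))))))))) := rfl
  rw [h1] at h
  simp only [u_rimT, u_vcT, u_xvT, u_yvT] at h
  push_cast at h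
  simp only [sum5]
  linarith

end Pool.Agent.Helper36.ISO
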