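import Pool.Agent.Helper79.PN.Lem

/-!
Project ISO, rows K0, K1, K2, K3: a computable checker for finitely supported kernel functions.
-/

set_option autoImplicit false

namespace Pool.Agent.Helper36.ISO

open Pool.Agent.Helper79.PN

/-! ### computable data -/

/-- displacements -/
abbrev T5 : Type := ℤ × ℤ × ℤ × ℤ × ℤ

/-- coordinates -/
def gt5 (x : T5) (j : ZMod 5) : ℤ :=
  match j.val with
  | 0 => x.1
  | 1 => x.2.1
  | 2 => x.2.2.1
  | 3 => x.2.2.2.1
  | _ => x.2.2.2.2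

/-- displacements as lattice points -/
def tl (x : T5) : Lam := fun j => gt5 x j

/-- unit steps -/
def ut (i : ZMod 5) : T5 :=
  match i.val with
  | 0 => (1, 0, 0, 0, 0)
  | 1 => (0, 1, 0, 0, 0)
  | 2 => (0, 0, 1, 0, 0)
  | 3 => (0, 0, 0, 1, 0)
  | _ => (0, 0, 0, 0, 1)

/-- sum of displacements -/
def ad (x y : T5) : T5 :=
  (x.1 + y.1, x.2.1 + y.2.1, x.2.2.1 + y.2.2.1, x.2.2.2.1 + y.2.2.2.1, x.2.2.2.2 + y.2.2.2.2)

/-- difference of displacements -/
def sb (x y : T5) : T5 :=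
  (x.1 - y.1, x.2.1 - y.2.1, x.2.2.1 - y.2.2.1, x.2.2.2.1 - y.2.2.2.1, x.2.2.2.2 - y.2.2.2.2)

/-- the indices -/
def L5 : List (ZMod 5) := [0, 1, 2, 3, 4]

/-- index of a displacement -/
def sm (x : T5) : ℤ := x.1 + x.2.1 + x.2.2.1 + x.2.2.2.1 + x.2.2.2.2

/-- length of a displacement -/
def l1 (x : T5) : ℕ :=
  x.1.natAbs + x.2.1.natAbs + x.2.2.1.natAbs + x.2.2.2.1.natAbs + x.2.2.2.2.natAbs

/-- neighbour sum of a table -/
def adjv : List (T5 × ℤ) → T5 → ℤ
  | [], _ => 0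
  | t :: l, x => (if l1 (sb t.1 x) = 1 then t.2 else 0) + adjv l x

/-- neighbours of the support -/
def nbl (tab : List (T5 × ℤ)) : List T5 :=
  tab.flatMap fun t => L5.flatMap fun i => [ad t.1 (ut i), sb t.1 (ut i)]

/-- `0 ≤ p + q g` -/
def nn (p q : ℤ) : Bool :=
  if 0 ≤ q then decide (0 ≤ 1000 * p + 1618 * q) else decide (0 ≤ 10000 * p + 16181 * q)

/-- twice the change of `h j` is `cA + g * cB` -/
def cA (x : T5) (j : ZMod 5) : ℤ := 2 * gt5 x j - gt5 x (j + 1) - gt5 x (j - 1)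

/-- twice the change of `h j` is `cA + g * cB` -/
def cB (x : T5) (j : ZMod 5) : ℤ :=
  gt5 x (j + 1) + gt5 x (j - 1) - gt5 x (j + 2) - gt5 x (j - 2)

/-- the displaced point is a vertex -/
def inW (n LA LB : ℤ) (x : T5) : Bool :=
  if n + sm x = 1 then L5.all fun j => nn (LA + cA x j) (LB + cB x j + 1)
  else if n + sm x = 2 then
    L5.all fun j => nn (1 - (2 * LA - 2 * LB) - cA x j) (1 - -(2 * LA) - cB x j)
  else if n + sm x = 3 then L5.all fun j => nn (LA + cA x j + 1) (LB + cB x j + 1)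
  else if n + sm x = 4 then
    L5.all fun j => nn (-(2 * LA - 2 * LB) - cA x j) (1 - -(2 * LA) - cB x j)
  else false

/-- one of two -/
def two (f : ZMod 5 → Bool) : Bool := L5.all fun k => f (k + 2) || f (k - 2)

/-- the displaced point is not a vertex of degree 3 -/
def noT (n LA LB : ℤ) (x : T5) : Bool :=
  if n + sm x = 1 then
    (L5.any fun j => nn (-(2 * LA - 2 * LB) - cA x j) (-1 - -(2 * LA) - cB x j)) ||
    two fun j => nn (-1 - (2 * LA - 2 * LB) - cA x j) (1 - -(2 * LA) - cB x j)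
  else if n + sm x = 2 then
    (L5.any fun j => nn (LA + cA x j - 1) (LB + cB x j - 1)) ||
    two fun j => nn (LA + cA x j + 1) (LB + cB x j)
  else if n + sm x = 3 then
    (L5.any fun j => nn (-1 - (2 * LA - 2 * LB) - cA x j) (-1 - -(2 * LA) - cB x j)) ||
    two fun j => nn (1 - (2 * LA - 2 * LB) - cA x j) (- -(2 * LA) - cB x j)
  else if n + sm x = 4 then
    (L5.any fun j => nn (LA + cA x j) (LB + cB x j - 1)) ||
    two fun j => nn (LA + cA x j - 1) (LB + cB x j + 1)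
  else true

/-- the checker -/
def ck (n LA LB : ℤ) (tab : List (T5 × ℤ)) : Bool :=
  (tab.all fun t => inW n LA LB t.1 && noT n LA LB t.1) &&
    (nbl tab).all fun x => decide (adjv tab x = 0) || noT n LA LB x

end Pool.Agent.Helper36.ISO
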