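import Pool.Agent.Helper36.ISO.KTS

/-!
Project ISO, rows K0, K1, K2, K3: kernel functions given by tables.
-/

set_option autoImplicit false

open scoped Classical

namespace Pool.Agent.Helper36.ISO

open Pool.Agent.Helper79.PN Pool.Agent.Helper69.ISO

/-- the function given by a table -/
noncomputable def bf (u : Lam) : List (T5 × ℤ) → Lam → ℝ
  | [], _ => 0
  | t :: l, K => (t.2 : ℝ) * ind (K = u + tl t.1) + bf u l K

theorem bf_ne {u K : Lam} : ∀ {tab : List (T5 × ℤ)}, bf u tab K ≠ 0 →
    ∃ t ∈ tab, K = u + tl t.1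
  | [], h => absurd rfl h
  | t :: l, h => by
    by_cases h1 : K = u + tl t.1
    · exact ⟨t, List.mem_cons_self, h1⟩
    · have h2 : bf u l K ≠ 0 := by
        intro h3
        apply h
        show (t.2 : ℝ) * ind (K = u + tl t.1) + bf u l K = 0
        rw [ind_false h1, h3]
        ring
      obtain ⟨t', h3, h4⟩ := bf_ne h2
      exact ⟨t', List.mem_cons_of_mem _ h3, h4⟩

theorem bf_fin (u : Lam) (tab : List (T5 × ℤ)) : (Function.support (bf u tab)).Finite := by
  refine Set.Finite.subset (List.finite_toSet (tab.map fun t => u + tl t.1)) fun K hK => ?_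
  obtain ⟨t, h1, h2⟩ := bf_ne hK
  exact List.mem_map.2 ⟨t, h1, h2.symm⟩

/-- negative of a displacement -/
def ngt (x : T5) : T5 := (-x.1, -x.2.1, -x.2.2.1, -x.2.2.2.1, -x.2.2.2.2)

theorem five_nat (a b c d e : ℕ) (h : a + b + c + d + e = 1) :
    (a = 1 ∧ b = 0 ∧ c = 0 ∧ d = 0 ∧ e = 0) ∨ (a = 0 ∧ b = 1 ∧ c = 0 ∧ d = 0 ∧ e = 0) ∨
    (a = 0 ∧ b = 0 ∧ c = 1 ∧ d = 0 ∧ e = 0) ∨ (a = 0 ∧ b = 0 ∧ c = 0 ∧ d = 1 ∧ e = 0) ∨
    (a = 0 ∧ b = 0 ∧ c = 0 ∧ d = 0 ∧ e = 1) := by omega

theorem unit_sum (d : T5) :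
    ∑ i : ZMod 5, (ind (ut i = d) + ind (ut i = ngt d)) = if l1 d = 1 then 1 else 0 := by
  obtain ⟨d0, d1, d2, d3, d4⟩ := d
  have h0 : ut 0 = (1, 0, 0, 0, 0) := rfl
  have h1 : ut 1 = (0, 1, 0, 0, 0) := rfl
  have h2 : ut 2 = (0, 0, 1, 0, 0) := rfl
  have h3 : ut 3 = (0, 0, 0, 1, 0) := rfl
  have h4 : ut 4 = (0, 0, 0, 0, 1) := rfl
  have hs : ∀ f : ZMod 5 → ℝ, ∑ i : ZMod 5, f i = f 0 + f 1 + f 2 + f 3 + f 4 :=
    fun f => Fin.sum_univ_five f
  rw [hs]
  rw [h0, h1, h2, h3, h4]
  by_cases h : l1 (d0, d1, d2, d3, d4) = 1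
  · rw [if_pos h]
    have h' : d0.natAbs + d1.natAbs + d2.natAbs + d3.natAbs + d4.natAbs = 1 := h
    have z0 : ∀ x : ℤ, x.natAbs = 0 → x = 0 := fun x q => Int.natAbs_eq_zero.1 q
    have z1 : ∀ x : ℤ, x.natAbs = 1 → x = 1 ∨ x = -1 := fun x q => Int.natAbs_eq_iff.1 q
    rcases five_nat _ _ _ _ _ h' with ⟨a, b, c, d, e⟩ | ⟨a, b, c, d, e⟩ | ⟨a, b, c, d, e⟩ |
      ⟨a, b, c, d, e⟩ | ⟨a, b, c, d, e⟩
    · have b := z0 _ b
      have c := z0 _ c
      have d := z0 _ d
      have e := z0 _ e
      subst b c d e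
      rcases z1 _ a with rfl | rfl <;> simp [ind, ngt]
    · have a := z0 _ a
      have c := z0 _ c
      have d := z0 _ d
      have e := z0 _ e
      subst a c d e
      rcases z1 _ b with rfl | rfl <;> simp [ind, ngt]
    · have a := z0 _ a
      have b := z0 _ b
      have d := z0 _ d
      have e := z0 _ e
      subst a b d e
      rcases z1 _ c with rfl | rfl <;> simp [ind, ngt]
    · have a := z0 _ a
      have b := z0 _ b
      have c := z0 _ c
      have e := z0 _ e
      subst a b c e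
      rcases z1 _ d with rfl | rfl <;> simp [ind, ngt]
    · have a := z0 _ a
      have b := z0 _ b
      have c := z0 _ c
      have d := z0 _ d
      subst a b c d
      rcases z1 _ e with rfl | rfl <;> simp [ind, ngt]
  · rw [if_neg h]
    have z : ∀ i : ZMod 5, l1 (ut i) = 1 := by decide
    have z1 : ∀ i : ZMod 5, ind (ut i = (d0, d1, d2, d3, d4)) = 0 := fun i =>
      ind_false fun q => h (q ▸ z i)
    have z2 : ∀ i : ZMod 5, ind (ut i = ngt (d0, d1, d2, d3, d4)) = 0 := by
      intro i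
      refine ind_false fun q => h ?_
      have q1 := z i
      rw [q] at q1
      show d0.natAbs + d1.natAbs + d2.natAbs + d3.natAbs + d4.natAbs = 1
      have q2 : (-d0).natAbs + (-d1).natAbs + (-d2).natAbs + (-d3).natAbs + (-d4).natAbs = 1 := q1
      simpa using q2
    have a0 := z1 0
    have a1 := z1 1
    have a2 := z1 2
    have a3 := z1 3
    have a4 := z1 4
    have b0 := z2 0
    have b1 := z2 1
    have b2 := z2 2
    have b3 := z2 3
    have b4 := z2 4
    rw [h0] at a0 b0
    rw [h1] at a1 b1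
    rw [h2] at a2 b2
    rw [h3] at a3 b3
    rw [h4] at a4 b4
    rw [a0, a1, a2, a3, a4, b0, b1, b2, b3, b4]
    norm_num

theorem ind_iff {p q : Prop} (h : p ↔ q) : ind p = ind q := by
  unfold ind
  simp only [h]

theorem step_sum (u : Lam) (x y : T5) :
    ∑ i : ZMod 5, (ind (u + tl x + e i = u + tl y) + ind (u + tl x - e i = u + tl y)) =
      if l1 (sb y x) = 1 then 1 else 0 := by
  rw [← unit_sum]
  refine Finset.sum_congr rfl fun i _ => ?_
  congr 1
  · refine ind_iff ⟨fun h => tl_inj ?_, fun h => ?_⟩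
    · rw [tl_ut, tl_sb]
      have h' : e i = tl y - tl x := by
        have := congrArg (fun z => z - u - tl x) h
        try simp only at this
        rw [show u + tl x + e i - u - tl x = e i by abel,
          show u + tl y - u - tl x = tl y - tl x by abel] at this
        exact this
      exact h'
    · have h' := congrArg tl h
      rw [tl_ut, tl_sb] at h'
      rw [h']
      abel
  · refine ind_iff ⟨fun h => tl_inj ?_, fun h => ?_⟩
    · rw [tl_ut]
      have h0 : ngt (sb y x) = sb x y := by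
        unfold ngt sb
        simp
      rw [h0, tl_sb]
      have := congrArg (fun z => u + tl x - z) h
      try simp only at this
      rw [show u + tl x - (u + tl x - e i) = e i by abel,
        show u + tl x - (u + tl y) = tl x - tl y by abel] at this
      exact this
    · have h0 : ngt (sb y x) = sb x y := by
        unfold ngt sb
        simp
      rw [h0] at h
      have h' := congrArg tl h
      rw [tl_ut, tl_sb] at h'
      rw [h']
      abel

theorem adj_bf (u : Lam) (x : T5) : ∀ tab : List (T5 × ℤ),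
    adj (bf u tab) (u + tl x) = (adjv tab x : ℝ)
  | [] => by
    unfold adj adjv
    simp [bf]
  | t :: l => by
    have h1 := adj_bf u x l
    have h2 := step_sum u x t.1
    unfold adj at h1 ⊢
    show ∑ i, (((t.2 : ℝ) * ind (u + tl x + e i = u + tl t.1) + bf u l (u + tl x + e i)) +
      ((t.2 : ℝ) * ind (u + tl x - e i = u + tl t.1) + bf u l (u + tl x - e i))) = _
    have h3 : ∑ i, (((t.2 : ℝ) * ind (u + tl x + e i = u + tl t.1) + bf u l (u + tl x + e i)) +
      ((t.2 : ℝ) * ind (u + tl x - e i = u + tl t.1) + bf u l (u + tl x - e i))) =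
      (t.2 : ℝ) * ∑ i, (ind (u + tl x + e i = u + tl t.1) + ind (u + tl x - e i = u + tl t.1)) +
        ∑ i, (bf u l (u + tl x + e i) + bf u l (u + tl x - e i)) := by
      rw [Finset.mul_sum, ← Finset.sum_add_distrib]
      refine Finset.sum_congr rfl fun i _ => ?_
      ring
    rw [h3, h1, h2]
    show _ = (((if l1 (sb t.1 x) = 1 then t.2 else 0) + adjv l x : ℤ) : ℝ)
    push_cast
    congr 1
    split_ifs <;> simp

theorem adjv_ne {x : T5} : ∀ {tab : List (T5 × ℤ)}, adjv tab x ≠ 0 →
    ∃ t ∈ tab, l1 (sb t.1 x) = 1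
  | [], h => absurd rfl h
  | t :: l, h => by
    by_cases h1 : l1 (sb t.1 x) = 1
    · exact ⟨t, List.mem_cons_self, h1⟩
    · have h2 : adjv l x ≠ 0 := by
        intro h3
        apply h
        show (if l1 (sb t.1 x) = 1 then t.2 else 0) + adjv l x = 0
        rw [if_neg h1, h3]
        rfl
      obtain ⟨t', h3, h4⟩ := adjv_ne h2
      exact ⟨t', List.mem_cons_of_mem _ h3, h4⟩

theorem mem_nbl {tab : List (T5 × ℤ)} {t : T5 × ℤ} {x : T5} (ht : t ∈ tab)
    (h : l1 (sb t.1 x) = 1) : x ∈ nbl tab := by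
  have h1 := unit_sum (sb t.1 x)
  rw [if_pos h] at h1
  have h2 : ∃ i : ZMod 5, ut i = sb t.1 x ∨ ut i = ngt (sb t.1 x) := by
    by_contra hc
    push Not at hc
    have h3 : ∑ i : ZMod 5, (ind (ut i = sb t.1 x) + ind (ut i = ngt (sb t.1 x))) = 0 := by
      refine Finset.sum_eq_zero fun i _ => ?_
      rw [ind_false (hc i).1, ind_false (hc i).2]
      norm_num
    rw [h3] at h1
    norm_num at h1
  obtain ⟨i, hi⟩ := h2
  unfold nbl
  refine List.mem_flatMap.2 ⟨t, ht, List.mem_flatMap.2 ⟨i, mem_L5 i, ?_⟩⟩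
  rcases hi with hi | hi
  · have : x = sb t.1 (ut i) := by
      apply tl_inj
      rw [tl_sb, hi, tl_sb]
      abel
    rw [this]
    simp
  · have : x = ad t.1 (ut i) := by
      apply tl_inj
      have h0 : ngt (sb t.1 x) = sb x t.1 := by
        unfold ngt sb
        simp
      rw [tl_ad, hi, h0, tl_sb]
      abel
    rw [this]
    simp

theorem ker_tab {P : Pen} {u : Lam} {n LA LB : ℤ} {tab : List (T5 × ℤ)} (hn : P.n u = n)
    (hl : ∀ j, ((LA : ℝ) + g * LB) / 2 < P.h u j) (h : ck n LA LB tab = true) :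
    Ker P (bf u tab) := by
  unfold ck at h
  rw [Bool.and_eq_true] at h
  obtain ⟨h1, h2⟩ := h
  refine ⟨bf_fin u tab, ?_, ?_⟩
  · intro K hK
    by_contra hc
    obtain ⟨t, ht, rfl⟩ := bf_ne hc
    have h3 := List.all_eq_true.1 h1 t ht
    rw [Bool.and_eq_true] at h3
    rcases hK with hK | hK
    · exact hK (inW_sound hn hl h3.1)
    · exact noT_sound hn hl h3.2 hK
  · intro w hw
    obtain ⟨x, hx⟩ := tl_surj (w - u)
    have hx' : w = u + tl x := by
      rw [hx]
      abel
    subst hx'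
    rw [adj_bf]
    by_cases h3 : adjv tab x = 0
    · rw [h3]
      simp
    · exfalso
      obtain ⟨t, ht, h4⟩ := adjv_ne h3
      have h5 := List.all_eq_true.1 h2 x (mem_nbl ht h4)
      rw [Bool.or_eq_true] at h5
      rcases h5 with h5 | h5
      · exact h3 (of_decide_eq_true h5)
      · exact noT_sound hn hl h5 hw

/-- weighted sum of a table -/
noncomputable def sf (a : Lam → ℝ) (u : Lam) : List (T5 × ℤ) → ℝ
  | [] => 0
  | t :: l => (t.2 : ℝ) * a (u + tl t.1) + sf a u l

theorem tsum_bf (a : Lam → ℝ) (u : Lam) : ∀ tab : List (T5 × ℤ),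
    HasSum (fun K => a K * bf u tab K) (sf a u tab)
  | [] => by
    show HasSum (fun K => a K * 0) 0
    simp only [mul_zero]
    exact hasSum_zero
  | t :: l => by
    have h1 := tsum_bf a u l
    have h2 : HasSum (fun K => a K * ((t.2 : ℝ) * ind (K = u + tl t.1)))
        ((t.2 : ℝ) * a (u + tl t.1)) := by
      have h3 := hasSum_ite_eq (u + tl t.1) ((t.2 : ℝ) * a (u + tl t.1))
      have h5 : (fun K => a K * ((t.2 : ℝ) * ind (K = u + tl t.1))) =
          fun K => if K = u + tl t.1 then (t.2 : ℝ) * a (u + tl t.1) else 0 := by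
        funext K
        by_cases h4 : K = u + tl t.1
        · rw [ind_true h4, if_pos h4, h4]
          ring
        · rw [ind_false h4, if_neg h4]
          ring
      rw [h5]
      exact h3
    have h3 := h2.add h1
    show HasSum (fun K => a K * ((t.2 : ℝ) * ind (K = u + tl t.1) + bf u l K))
      ((t.2 : ℝ) * a (u + tl t.1) + sf a u l)
    simp only [mul_add]
    exact h3

theorem orth_tab {P : Pen} {a : Lam → ℝ} {u : Lam} {n LA LB : ℤ} {tab : List (T5 × ℤ)}
    (ha : Orth P a) (hn : P.n u = n) (hl : ∀ j, ((LA : ℝ) + g * LB) / 2 < P.h u j)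
    (h : ck n LA LB tab = true) : sf a u tab = 0 := by
  have h1 := ha _ (ker_tab hn hl h)
  rwa [(tsum_bf a u tab).tsum_eq] at h1

/-- K0 -/
theorem K0 : ST_K0 := by
  intro P a v ha hv hT hN
  have h := ha (fun K => ind (K = v)) ⟨?_, ?_, ?_⟩
  · have h1 := tsum_bf a v [((0, 0, 0, 0, 0), 1)]
    have h2 : tl (0, 0, 0, 0, 0) = 0 := by
      funext j
      fin_cases j <;> rfl
    have h3 : (fun K => a K * bf v [((0, 0, 0, 0, 0), 1)] K) = fun K => a K * ind (K = v) := by
      funext K
      show a K * (((1 : ℤ) : ℝ) * ind (K = v + tl (0, 0, 0, 0, 0)) + 0) = _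
      have h5 : v + (0 : Lam) = v := add_zero v
      rw [h2, h5]
      push_cast
      ring
    rw [h3] at h1
    rw [h1.tsum_eq] at h
    have h4 : sf a v [((0, 0, 0, 0, 0), 1)] = ((1 : ℤ) : ℝ) * a (v + tl (0, 0, 0, 0, 0)) + 0 := rfl
    rw [h4, h2] at h
    have h5 : v + 0 = v := add_zero v
    rw [h5] at h
    push_cast at h
    linarith
  · refine Set.Finite.subset (Set.finite_singleton v) fun K hK => ?_
    by_contra hc
    exact hK (ind_false hc)
  · intro K hK
    refine ind_false ?_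
    rintro rfl
    rcases hK with hK | hK
    · exact hK hv
    · exact hT hK
  · intro w hw
    unfold adj
    refine Finset.sum_eq_zero fun i _ => ?_
    show ind (w + e i = v) + ind (w - e i = v) = 0
    rw [ind_false, ind_false]
    · norm_num
    · intro h1
      refine hN w hw ⟨i, Or.inl ?_⟩
      rw [← h1]
      abel
    · intro h1
      refine hN w hw ⟨i, Or.inr ?_⟩
      rw [← h1]
      abel

end Pool.Agent.Helper36.ISO
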