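import Pool.Agent.Helper36.ISO.KT
import Pool.Agent.Helper69.ISO.Sheet

/-!
Project ISO, rows K0, K1, K2, K3: soundness of the checker.
-/

set_option autoImplicit false

open scoped Classical

namespace Pool.Agent.Helper36.ISO

open Pool.Agent.Helper79.PN Pool.Agent.Helper69.ISO

/-! ### displacements -/

theorem tl_ad (x y : T5) : tl (ad x y) = tl x + tl y := by
  funext j
  fin_cases j <;> rfl

theorem tl_sb (x y : T5) : tl (sb x y) = tl x - tl y := by
  funext j
  fin_cases j <;> rfl

theorem tl_ut (i : ZMod 5) : tl (ut i) = e i := by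
  funext j
  revert i j
  unfold e
  decide

theorem tl_inj {x y : T5} (h : tl x = tl y) : x = y := by
  obtain ⟨x0, x1, x2, x3, x4⟩ := x
  obtain ⟨y0, y1, y2, y3, y4⟩ := y
  have h0 : x0 = y0 := congrFun h 0
  have h1 : x1 = y1 := congrFun h 1
  have h2 : x2 = y2 := congrFun h 2
  have h3 : x3 = y3 := congrFun h 3
  have h4 : x4 = y4 := congrFun h 4
  rw [h0, h1, h2, h3, h4]

theorem tl_surj (D : Lam) : ∃ x, tl x = D :=
  ⟨(D 0, D 1, D 2, D 3, D 4), by funext j; fin_cases j <;> rfl⟩

theorem h_zs (P : Pen) (K : Lam) (i j : ZMod 5) (m : ℤ) :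
    P.h (K + m • e i) j = P.h K j + m * cc (i - j) := by
  induction m using Int.induction_on with
  | zero => simp
  | succ m ih =>
    rw [add_smul, one_smul, ← add_assoc, P.h_add, ih]
    push_cast
    ring
  | pred m ih =>
    rw [sub_smul, one_smul, ← add_sub_assoc, P.h_sub, ih]
    push_cast
    ring

theorem n_zs (P : Pen) (K : Lam) (i : ZMod 5) (m : ℤ) : P.n (K + m • e i) = P.n K + m := by
  induction m using Int.induction_on with
  | zero => simp
  | succ m ih =>
    rw [add_smul, one_smul, ← add_assoc, P.n_add, ih]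
    ring
  | pred m ih =>
    rw [sub_smul, one_smul, ← add_sub_assoc, P.n_sub, ih]
    ring

theorem lam_sum (D : Lam) : ∑ i, D i • e i = D := by
  have h : ∀ i, D i • e i = Pi.single i (D i) := by
    intro i
    unfold e
    rw [← Pi.single_smul, smul_eq_mul, mul_one]
  simp only [h]
  exact Finset.univ_sum_single D

theorem h_D (P : Pen) (u D : Lam) (j : ZMod 5) :
    P.h (u + D) j = P.h u j + ∑ i, (D i : ℝ) * cc (i - j) := by
  have key : ∀ s : Finset (ZMod 5), P.h (u + ∑ i ∈ s, D i • e i) j =
      P.h u j + ∑ i ∈ s, (D i : ℝ) * cc (i - j) := by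
    intro s
    induction s using Finset.induction_on with
    | empty => simp
    | insert i s hi ih =>
      rw [Finset.sum_insert hi, Finset.sum_insert hi, add_comm (D i • e i), ← add_assoc, h_zs, ih]
      ring
  have h := key Finset.univ
  rwa [lam_sum] at h

theorem n_D (P : Pen) (u D : Lam) : P.n (u + D) = P.n u + ∑ i, D i := by
  have key : ∀ s : Finset (ZMod 5), P.n (u + ∑ i ∈ s, D i • e i) = P.n u + ∑ i ∈ s, D i := by
    intro s
    induction s using Finset.induction_on with
    | empty => simp
    | insert i s hi ih =>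
      rw [Finset.sum_insert hi, Finset.sum_insert hi, add_comm (D i • e i), ← add_assoc, n_zs, ih]
      ring
  have h := key Finset.univ
  rwa [lam_sum] at h

theorem h_tl (P : Pen) (u : Lam) (x : T5) (j : ZMod 5) :
    P.h (u + tl x) j = P.h u j + ((cA x j : ℝ) + g * cB x j) / 2 := by
  rw [h_D, sum5 j]
  have e1 : j + 1 - j = 1 := by ring
  have e2 : j - 1 - j = -1 := by ring
  have e3 : j + 2 - j = 2 := by ring
  have e4 : j - 2 - j = -2 := by ring
  rw [sub_self, e1, e2, e3, e4, cc0, cc1, cc2, cc1', cc2']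
  unfold cA cB tl
  push_cast
  ring

theorem n_tl (P : Pen) (u : Lam) (x : T5) : P.n (u + tl x) = P.n u + sm x := by
  rw [n_D]
  have h : ∑ i, tl x i = sm x := by
    rw [show (Finset.univ : Finset (ZMod 5)) = {0, 1, 2, 3, 4} from rfl]
    rw [Finset.sum_insert (by decide), Finset.sum_insert (by decide),
      Finset.sum_insert (by decide), Finset.sum_insert (by decide), Finset.sum_singleton]
    show x.1 + (x.2.1 + (x.2.2.1 + (x.2.2.2.1 + x.2.2.2.2))) = _
    unfold sm
    ring
  rw [h]

theorem mem_L5 (j : ZMod 5) : j ∈ L5 := by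
  revert j
  decide

/-! ### inequalities -/

theorem nn_sound {p q : ℤ} (h : nn p q = true) : 0 ≤ (p : ℝ) + g * q := by
  have g1 := g_gt
  have g2 := g_lt
  unfold nn at h
  split_ifs at h with hq
  · have h' : (0 : ℤ) ≤ 1000 * p + 1618 * q := of_decide_eq_true h
    have h1 : (0 : ℝ) ≤ 1000 * p + 1618 * q := by exact_mod_cast h'
    have h2 : (0 : ℝ) ≤ q := by exact_mod_cast hq
    nlinarith
  · have h' : (0 : ℤ) ≤ 10000 * p + 16181 * q := of_decide_eq_true h
    have h1 : (0 : ℝ) ≤ 10000 * p + 16181 * q := by exact_mod_cast h'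
    have h2 : (q : ℝ) ≤ 0 := by exact_mod_cast (not_le.1 hq).le
    nlinarith

theorem hi_of_lo {P : Pen} {u : Lam} {LA LB : ℤ}
    (hl : ∀ j, ((LA : ℝ) + g * LB) / 2 < P.h u j) (j : ZMod 5) :
    P.h u j < ((2 * LA - 2 * LB : ℝ) + g * (-(2 * LA))) / 2 := by
  have g1 := g_gt
  have g2 := g_sq
  have h1 := P.rel2 u j
  have h2 := hl (j + 2)
  have h3 := hl (j - 2)
  have h4 : (LA : ℝ) + g * LB < -(g * P.h u j) := by linarith
  have h5 : (g - 1) * ((LA : ℝ) + g * LB) < (g - 1) * -(g * P.h u j) :=
    mul_lt_mul_of_pos_left h4 (by linarith)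
  have h6 : (g - 1) * -(g * P.h u j) = -P.h u j := by linear_combination -(P.h u j) * g2
  have h7 : (g - 1) * ((LA : ℝ) + g * LB) = g * LA - LA + LB := by linear_combination LB * g2
  rw [h6, h7] at h5
  linarith

theorem isT_cases {P : Pen} {K : Lam} (h : IsT P K) :
    (P.n K = 1 ∧ (∀ j, -g / 2 < P.h K j) ∧
      ∃ k, (g - 1) / 2 < P.h K (k + 2) ∧ (g - 1) / 2 < P.h K (k - 2)) ∨
    (P.n K = 2 ∧ (∀ j, P.h K j < (g + 1) / 2) ∧
      ∃ k, P.h K (k + 2) < -1 / 2 ∧ P.h K (k - 2) < -1 / 2) ∨
    (P.n K = 3 ∧ (∀ j, -(g + 1) / 2 < P.h K j) ∧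
      ∃ k, 1 / 2 < P.h K (k + 2) ∧ 1 / 2 < P.h K (k - 2)) ∨
    (P.n K = 4 ∧ (∀ j, P.h K j < g / 2) ∧
      ∃ k, P.h K (k + 2) < -(g - 1) / 2 ∧ P.h K (k - 2) < -(g - 1) / 2) := by
  obtain ⟨k, ⟨h1, h2, h3, h4⟩ | ⟨h1, h2, h3, h4⟩ | ⟨h1, h2, h3, h4⟩ | ⟨h1, h2, h3, h4⟩⟩ := h
  · exact Or.inl ⟨h1, (inv1 h1).1 h2, k, h3, h4⟩
  · exact Or.inr (Or.inl ⟨h1, (inv2 h1).1 h2, k, h3, h4⟩)
  · have h5 := (inv2 h1).1 h2
    rw [P.mir_n, neg_neg] at h1
    simp only [P.mir_h, neg_neg] at h3 h4 h5
    refine Or.inr (Or.inr (Or.inl ⟨by omega, fun j => ?_, k, ?_, ?_⟩))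
    · have := h5 j
      linarith
    · linarith
    · linarith
  · have h5 := (inv1 h1).1 h2
    rw [P.mir_n, neg_neg] at h1
    simp only [P.mir_h, neg_neg] at h3 h4 h5
    refine Or.inr (Or.inr (Or.inr ⟨by omega, fun j => ?_, k, ?_, ?_⟩))
    · have := h5 j
      linarith
    · linarith
    · linarith

theorem inW_sound {P : Pen} {u : Lam} {n LA LB : ℤ} {x : T5} (hn : P.n u = n)
    (hl : ∀ j, ((LA : ℝ) + g * LB) / 2 < P.h u j) (h : inW n LA LB x = true) :
    InV P (u + tl x) := by
  have hN := n_tl P u x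
  rw [hn] at hN
  have hh := h_tl P u x
  have hu := hi_of_lo hl
  unfold inW at h
  split_ifs at h with h1 h2 h3 h4
  · refine (inv1 (hN.trans h1)).2 fun j => ?_
    have k := nn_sound (List.all_eq_true.1 h j (mem_L5 j))
    push_cast at k
    rw [hh]
    have := hl j
    linarith
  · refine (inv2 (hN.trans h2)).2 fun j => ?_
    have k := nn_sound (List.all_eq_true.1 h j (mem_L5 j))
    push_cast at k
    rw [hh]
    have := hu j
    linarith
  · refine (inv3 (hN.trans h3)).2 fun j => ?_
    have k := nn_sound (List.all_eq_true.1 h j (mem_L5 j))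
    push_cast at k
    rw [hh]
    have := hl j
    linarith
  · refine (inv4 (hN.trans h4)).2 fun j => ?_
    have k := nn_sound (List.all_eq_true.1 h j (mem_L5 j))
    push_cast at k
    rw [hh]
    have := hu j
    linarith

theorem two_sound {f : ZMod 5 → Bool} (h : two f = true) (k : ZMod 5) :
    f (k + 2) = true ∨ f (k - 2) = true := by
  have h1 := List.all_eq_true.1 h k (mem_L5 k)
  simpa using h1

theorem noT_sound {P : Pen} {u : Lam} {n LA LB : ℤ} {x : T5} (hn : P.n u = n)
    (hl : ∀ j, ((LA : ℝ) + g * LB) / 2 < P.h u j) (h : noT n LA LB x = true) :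
    ¬ IsT P (u + tl x) := by
  intro hT
  have hN := n_tl P u x
  rw [hn] at hN
  have hh := h_tl P u x
  have hu := hi_of_lo hl
  unfold noT at h
  rcases isT_cases hT with ⟨h1, h2, k, h3, h4⟩ | ⟨h1, h2, k, h3, h4⟩ | ⟨h1, h2, k, h3, h4⟩ |
    ⟨h1, h2, k, h3, h4⟩
  · rw [if_pos (by omega), Bool.or_eq_true] at h
    rcases h with h | h
    · obtain ⟨j, -, hj⟩ := List.any_eq_true.1 h
      have q := nn_sound hj
      push_cast at q
      have h5 := h2 j
      rw [hh] at h5
      have := hu j
      linarith
    · rw [hh] at h3 h4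
      rcases two_sound h k with h | h
      · have q := nn_sound h
        push_cast at q
        have := hu (k + 2)
        linarith
      · have q := nn_sound h
        push_cast at q
        have := hu (k - 2)
        linarith
  · rw [if_neg (by omega), if_pos (by omega), Bool.or_eq_true] at h
    rcases h with h | h
    · obtain ⟨j, -, hj⟩ := List.any_eq_true.1 h
      have q := nn_sound hj
      push_cast at q
      have h5 := h2 j
      rw [hh] at h5
      have := hl j
      linarith
    · rw [hh] at h3 h4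
      rcases two_sound h k with h | h
      · have q := nn_sound h
        push_cast at q
        have := hl (k + 2)
        linarith
      · have q := nn_sound h
        push_cast at q
        have := hl (k - 2)
        linarith
  · rw [if_neg (by omega), if_neg (by omega), if_pos (by omega), Bool.or_eq_true] at h
    rcases h with h | h
    · obtain ⟨j, -, hj⟩ := List.any_eq_true.1 h
      have q := nn_sound hj
      push_cast at q
      have h5 := h2 j
      rw [hh] at h5
      have := hu j
      linarith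
    · rw [hh] at h3 h4
      rcases two_sound h k with h | h
      · have q := nn_sound h
        push_cast at q
        have := hu (k + 2)
        linarith
      · have q := nn_sound h
        push_cast at q
        have := hu (k - 2)
        linarith
  · rw [if_neg (by omega), if_neg (by omega), if_neg (by omega), if_pos (by omega),
      Bool.or_eq_true] at h
    rcases h with h | h
    · obtain ⟨j, -, hj⟩ := List.any_eq_true.1 h
      have q := nn_sound hj
      push_cast at q
      have h5 := h2 j
      rw [hh] at h5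
      have := hl j
      linarith
    · rw [hh] at h3 h4
      rcases two_sound h k with h | h
      · have q := nn_sound h
        push_cast at q
        have := hl (k + 2)
        linarith
      · have q := nn_sound h
        push_cast at q
        have := hl (k - 2)
        linarith

end Pool.Agent.Helper36.ISO
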